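import Pool.Agent.U798.GP.Spec

/-!
# Project GQ (helper798), package ODD (helper390)

The lemma `leg_one` is copied from `Pool/Agent/U491/BV/ORB.lean` (helper491).
-/

set_option autoImplicit false

namespace Pool.Agent.U390.GP

open Pool.Agent.U798.GP

/-- a prime `r` dividing `l + 1`, where `8 ∣ l + 1`, is a square modulo the prime `l` -/
theorem leg_one (r l : ℕ) [hr : Fact r.Prime] [hl : Fact l.Prime] (h8 : 8 ∣ l + 1) (h : r ∣ l + 1) :
    legendreSym l r = 1 := by
  have hl8 : l % 8 = 7 := by omega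
  have hl2 : l ≠ 2 := by omega
  have hrl : ¬ (l ∣ r) := by
    intro hd
    have h1 : l = r := (Nat.prime_dvd_prime_iff_eq hl.out hr.out).mp hd
    subst h1
    have h2 : l ∣ 1 := (Nat.dvd_add_right (dvd_refl l)).mp h
    have := hl.out.one_lt
    have := Nat.le_of_dvd one_pos h2
    omega
  by_cases hr2 : r = 2
  · subst hr2
    have h1 : IsSquare (2 : ZMod l) := (ZMod.exists_sq_eq_two_iff hl2).mpr (Or.inr hl8)
    rw [legendreSym.eq_one_iff']
    · exact_mod_cast h1
    · intro h0
      exact hrl ((ZMod.natCast_eq_zero_iff _ _).mp (by exact_mod_cast h0))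
  · have hodd : r % 2 = 1 := (hr.out.eq_two_or_odd).resolve_left hr2
    have h1 := legendreSym.quadratic_reciprocity' (p := r) (q := l) hr2 hl2
    have h2 : legendreSym r (l : ℤ) = legendreSym r (-1) := by
      have h3 : ((l : ℤ) : ZMod r) = ((-1 : ℤ) : ZMod r) := by
        have h4 : ((l + 1 : ℕ) : ZMod r) = 0 := (ZMod.natCast_eq_zero_iff _ _).mpr h
        push_cast at h4 ⊢
        linear_combination h4
      unfold legendreSym
      rw [h3]
    rw [h1, h2, legendreSym.at_neg_one hr2, ZMod.χ₄_eq_neg_one_pow hodd, ← pow_add]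
    have h5 : l / 2 = 2 * (l / 4) + 1 := by omega
    have h6 : r / 2 * (l / 2) + r / 2 = 2 * (r / 2 * (l / 4 + 1)) := by
      rw [h5]; ring
    rw [h6, pow_mul]
    norm_num

theorem smooth_one {B r m : ℕ} (hl : ∀ l : ℕ, l.Prime → l ∣ B → (l : ZMod r) ^ m = 1) :
    ∀ n s : ℕ, s ≤ n → s ∈ Sm B → (s : ZMod r) ^ m = 1 := by
  intro n
  induction n with
  | zero =>
    intro s hs hS
    have := hS.1
    omega
  | succ n ih =>
    intro s hs hS
    rcases Nat.eq_or_lt_of_le hS.1 with h1 | h1
    · rw [← h1]; simp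
    · have hp : s.minFac.Prime := Nat.minFac_prime (by omega)
      obtain ⟨t, ht⟩ := Nat.minFac_dvd s
      have ht0 : 1 ≤ t := by
        rcases Nat.eq_zero_or_pos t with h0 | h0
        · rw [h0] at ht; omega
        · exact h0
      have hts : t < s := by
        have := hp.two_le
        nlinarith
      have htS : t ∈ Sm B := ⟨ht0, fun l hlp hlt => hS.2 l hlp (hlt.trans (Dvd.intro_left _ ht.symm))⟩
      have h2 := ih t (by omega) htS
      have h3 := hl s.minFac hp (hS.2 _ hp (Nat.minFac_dvd s))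
      have h4 : (s : ZMod r) = (s.minFac : ZMod r) * (t : ZMod r) := by
        rw [← Nat.cast_mul, ← ht]
      rw [h4, mul_pow, h2, h3, one_mul]

theorem t_ODD : S_ODD := by
  intro p q hp hq
  have hB : 0 < p * q := by positivity
  have hne : NeZero (8 * (p * q)) := ⟨by positivity⟩
  obtain ⟨r, hr, hrp, hrm⟩ := Nat.forall_exists_prime_gt_and_eq_mod (q := 8 * (p * q)) (a := -1)
    isUnit_neg_one (8 * (p * q))
  have hd : 8 * (p * q) ∣ r + 1 := by
    rw [← ZMod.natCast_eq_zero_iff]
    push_cast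
    have h1 : (r : ZMod (8 * (p * q))) = -1 := hrm
    rw [h1]
    ring
  have h8 : 8 ∣ r + 1 := (Dvd.intro _ rfl).trans hd
  have hfr : Fact r.Prime := ⟨hrp⟩
  refine ⟨r, r / 2, hrp, ?_, by omega, ?_, ?_⟩
  · intro h
    have := Nat.le_of_dvd hB h
    omega
  · rw [Nat.odd_iff]; omega
  · intro s hs
    refine smooth_one (B := p * q) ?_ s s le_rfl hs
    intro l hlp hlB
    have hfl : Fact l.Prime := ⟨hlp⟩
    have h1 := leg_one l r h8 (hlB.trans ((Dvd.intro_left _ rfl).trans hd))
    have h2 := legendreSym.eq_pow r (l : ℤ)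
    rw [h1] at h2
    push_cast at h2
    exact h2.symm

end Pool.Agent.U390.GP
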